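import Mathlib
import Pool.Agent.Helper50.Rec.Defs

/-!
# PET induction: sequences of polynomials with uniform leading terms
-/

set_option autoImplicit false

open Polynomial Finset

namespace Pool.Agent.Helper50.Rec

/-- degrees at most `d`, coefficient `c` at `d` -/
def PU (u : ℕ → ℤ[X]) (d : ℕ) (c : ℤ) : Prop :=
  ∀ n, (u n).natDegree ≤ d ∧ (u n).coeff d = c

theorem PU.ult {u : ℕ → ℤ[X]} {d : ℕ} {c : ℤ} (h : PU u d c) (hd : 1 ≤ d) (hc : c ≠ 0) :
    ULT u ∧ (u 0).natDegree = d ∧ (u 0).leadingCoeff = c := by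
  have h1 : ∀ n, (u n).natDegree = d := by
    intro n
    refine le_antisymm (h n).1 (le_natDegree_of_ne_zero ?_)
    rw [(h n).2]; exact hc
  have h2 : ∀ n, (u n).leadingCoeff = c := by
    intro n
    rw [leadingCoeff, h1 n, (h n).2]
  exact ⟨⟨by rw [h1]; exact hd, fun j => ⟨by rw [h1, h1], by rw [h2, h2]⟩⟩, h1 0, h2 0⟩

theorem ULT.pu {u : ℕ → ℤ[X]} (h : ULT u) : PU u (u 0).natDegree (u 0).leadingCoeff := by
  intro n
  refine ⟨(h.2 n).1.le, ?_⟩
  rw [← (h.2 n).1]
  exact (h.2 n).2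

theorem ULT.lc_ne {u : ℕ → ℤ[X]} (h : ULT u) : (u 0).leadingCoeff ≠ 0 := by
  intro h0
  have h1 := h.1
  rw [leadingCoeff_eq_zero] at h0
  rw [h0] at h1
  simp at h1

theorem PU.add {u w : ℕ → ℤ[X]} {d : ℕ} {c c' : ℤ} (h : PU u d c) (h' : PU w d c') :
    PU (fun n => u n + w n) d (c + c') := fun n =>
  ⟨(natDegree_add_le _ _).trans (max_le (h n).1 (h' n).1), by
    rw [coeff_add, (h n).2, (h' n).2]⟩

theorem PU.neg {u : ℕ → ℤ[X]} {d : ℕ} {c : ℤ} (h : PU u d c) :
    PU (fun n => - u n) d (-c) := fun n =>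
  ⟨by rw [natDegree_neg]; exact (h n).1, by rw [coeff_neg, (h n).2]⟩

theorem PU.sub {u w : ℕ → ℤ[X]} {d : ℕ} {c c' : ℤ} (h : PU u d c) (h' : PU w d c') :
    PU (fun n => u n - w n) d (c - c') := fun n =>
  ⟨(natDegree_sub_le _ _).trans (max_le (h n).1 (h' n).1), by
    rw [coeff_sub, (h n).2, (h' n).2]⟩

theorem PU.up {u : ℕ → ℤ[X]} {d d' : ℕ} {c : ℤ} (h : PU u d c) (hd : d < d') : PU u d' 0 :=
  fun n => ⟨(h n).1.trans hd.le, coeff_eq_zero_of_natDegree_lt ((h n).1.trans_lt hd)⟩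

theorem PU.taylor {u : ℕ → ℤ[X]} {d : ℕ} {c : ℤ} (h : PU u d c) (k : ℤ) :
    PU (fun n => Polynomial.taylor k (u n)) d c := by
  intro n
  refine ⟨by rw [natDegree_taylor]; exact (h n).1, ?_⟩
  rcases (h n).1.lt_or_eq with h1 | h1
  · rw [coeff_eq_zero_of_natDegree_lt (by rw [natDegree_taylor]; exact h1), ← (h n).2,
      coeff_eq_zero_of_natDegree_lt h1]
  · rw [← (h n).2, ← h1, coeff_taylor_natDegree]
    rfl

/-- the difference of a polynomial of degree `d + 1` -/
theorem PU.delta {u : ℕ → ℤ[X]} {d : ℕ} {c : ℤ} (h : PU u (d + 1) c) (k : ℤ) :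
    PU (fun n => Polynomial.taylor k (u n) - u n) d ((d + 1) * k * c) := by
  intro n
  obtain ⟨h1, h2⟩ := h n
  constructor
  · rw [natDegree_le_iff_coeff_eq_zero]
    intro N hN
    have h3 := (h.taylor k) n
    rw [coeff_sub]
    rcases Nat.eq_or_lt_of_le (Nat.succ_le_of_lt hN) with h4 | h4
    · have h4' : N = d + 1 := h4.symm
      rw [h4', h3.2, h2, sub_self]
    · rw [coeff_eq_zero_of_natDegree_lt (lt_of_le_of_lt h3.1 h4),
        coeff_eq_zero_of_natDegree_lt (lt_of_le_of_lt h1 h4), sub_self]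
  · rw [coeff_sub, taylor_coeff]
    have h5 : (hasseDeriv d (u n)).natDegree ≤ 1 := by
      refine (natDegree_hasseDeriv_le _ _).trans ?_
      omega
    rw [eval_eq_sum_range' (lt_of_le_of_lt h5 (by norm_num : 1 < 2))]
    rw [Finset.sum_range_succ, Finset.sum_range_one, hasseDeriv_coeff, hasseDeriv_coeff]
    rw [zero_add, Nat.choose_self, add_comm 1 d, h2, Nat.choose_succ_self_right]
    push_cast
    ring

theorem ULT.neg {u : ℕ → ℤ[X]} (h : ULT u) : ULT (fun n => - u n) :=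
  (h.pu.neg.ult h.1 (neg_ne_zero.2 h.lc_ne)).1

theorem ULT.sub_comm' {u w : ℕ → ℤ[X]} (h : ULT (fun n => u n - w n)) :
    ULT (fun n => w n - u n) := by
  have := h.neg
  simpa using this

theorem ULT.taylor {u : ℕ → ℤ[X]} (h : ULT u) (k : ℤ) : ULT (fun n => Polynomial.taylor k (u n)) :=
  ((h.pu.taylor k).ult h.1 h.lc_ne).1

theorem ULT.delta {u : ℕ → ℤ[X]} (h : ULT u) (h2 : 2 ≤ (u 0).natDegree) {k : ℤ} (hk : k ≠ 0) :
    ULT (fun n => Polynomial.taylor k (u n) - u n) ∧
      (Polynomial.taylor k (u 0) - u 0).natDegree = (u 0).natDegree - 1 ∧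
      (Polynomial.taylor k (u 0) - u 0).leadingCoeff =
        (u 0).natDegree * k * (u 0).leadingCoeff := by
  obtain ⟨d, hd⟩ : ∃ d, (u 0).natDegree = d + 1 := ⟨(u 0).natDegree - 1, by omega⟩
  have hp := h.pu
  rw [hd] at hp
  have h3 := hp.delta k
  have h4 := h3.ult (by omega) (by
    have := h.lc_ne
    have h5 : ((d : ℤ) + 1) ≠ 0 := by positivity
    exact mul_ne_zero (mul_ne_zero h5 hk) this)
  refine ⟨h4.1, ?_, ?_⟩
  · rw [hd]
    exact h4.2.1
  · rw [hd]
    push_cast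
    exact h4.2.2

/-- the sum of a sequence and a difference of a sequence -/
theorem ULT.add_delta {u w : ℕ → ℤ[X]} (h : ULT w) (h' : ULT u) (h2 : 2 ≤ (u 0).natDegree) {k : ℤ}
    (hk : k ≠ 0)
    (hne : (w 0).leadingCoeff + (u 0).natDegree * k * (u 0).leadingCoeff ≠ 0) :
    ULT (fun n => w n + (Polynomial.taylor k (u n) - u n)) := by
  obtain ⟨h3, h4, h5⟩ := h'.delta h2 hk
  have h6 := h3.pu
  have h7 := h.pu
  rcases lt_trichotomy (w 0).natDegree (Polynomial.taylor k (u 0) - u 0).natDegree with h8 | h8 | h8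
  · have := (h7.up h8).add h6
    rw [zero_add] at this
    exact (this.ult (h.1.trans h8.le) h3.lc_ne).1
  · rw [← h8] at h6
    have := h7.add h6
    refine (this.ult h.1 ?_).1
    rw [h5]
    exact hne
  · have := h7.add (h6.up h8)
    rw [add_zero] at this
    exact (this.ult h.1 h.lc_ne).1

/-- the index type after one van der Corput step -/
abbrev PIdx {ι : Type} (p : ι → ℕ → ℤ[X]) (b : ι) : Type :=
  {a : ι // a ≠ b} ⊕ {a : ι // 2 ≤ (p a 0).natDegree}

/-- the family after one van der Corput step -/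
noncomputable def pfam {ι : Type} (p : ι → ℕ → ℤ[X]) (b : ι) (k : ℕ) : PIdx p b → ℕ → ℤ[X]
  | Sum.inl a => fun n => p a.1 n - p b n
  | Sum.inr a => fun n => Polynomial.taylor (k : ℤ) (p a.1 n) - p b n

/-- the exceptional shifts -/
def pbad {ι : Type} (p : ι → ℕ → ℤ[X]) : Set ℕ :=
  {k | ∃ a a' : ι, 2 ≤ (p a 0).natDegree ∧ (p a 0).leadingCoeff ≠ 0 ∧
    (p a 0 - p a' 0).leadingCoeff + (p a 0).natDegree * k * (p a 0).leadingCoeff = 0}

theorem pbad_finite {ι : Type} [Finite ι] (p : ι → ℕ → ℤ[X]) : (pbad p).Finite := by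
  have h : pbad p ⊆ ⋃ a : ι, ⋃ a' : ι, {k : ℕ | 2 ≤ (p a 0).natDegree ∧
      (p a 0).leadingCoeff ≠ 0 ∧
      (p a 0 - p a' 0).leadingCoeff + (p a 0).natDegree * k * (p a 0).leadingCoeff = 0} := by
    rintro k ⟨a, a', h⟩
    simp only [Set.mem_iUnion]
    exact ⟨a, a', h⟩
  refine Set.Finite.subset (Set.finite_iUnion fun a => Set.finite_iUnion fun a' => ?_) h
  refine Set.Subsingleton.finite ?_
  rintro k ⟨h1, h2, h3⟩ k' ⟨-, -, h3'⟩
  have h4 : ((p a 0).natDegree : ℤ) * (p a 0).leadingCoeff * (k - k') = 0 := by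
    linear_combination h3 - h3'
  have h5 : ((p a 0).natDegree : ℤ) ≠ 0 := by
    have : (p a 0).natDegree ≠ 0 := by omega
    exact_mod_cast this
  rcases mul_eq_zero.1 h4 with h6 | h6
  · exact absurd h6 (mul_ne_zero h5 h2)
  · omega

theorem nice_pfam {ι : Type} {p : ι → ℕ → ℤ[X]} (hp : Nice p) (b : ι) {k : ℕ} (hk : 1 ≤ k)
    (hkb : k ∉ pbad p) : Nice (pfam p b k) := by
  have hk0 : (k : ℤ) ≠ 0 := by
    have : k ≠ 0 := by omega
    exact_mod_cast this
  -- the key fact
  have key : ∀ a a' : ι, 2 ≤ (p a 0).natDegree →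
      ULT (fun n => Polynomial.taylor (k : ℤ) (p a n) - p a' n) := by
    intro a a' ha
    by_cases haa : a = a'
    · subst haa
      exact ((hp.self a).delta ha hk0).1
    · have h1 := (hp.diff a a' haa).add_delta (hp.self a) ha hk0 (by
        intro h0
        exact hkb ⟨a, a', ha, (hp.self a).lc_ne, h0⟩)
      have h2 : (fun n => Polynomial.taylor (k : ℤ) (p a n) - p a' n) =
          fun n => p a n - p a' n + (Polynomial.taylor (k : ℤ) (p a n) - p a n) := by
        funext n; ring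
      rw [h2]
      exact h1
  constructor
  · rintro (⟨a, ha⟩ | ⟨a, ha⟩)
    · exact hp.diff a b ha
    · exact key a b ha
  · rintro (⟨a, ha⟩ | ⟨a, ha⟩) (⟨a', ha'⟩ | ⟨a', ha'⟩) hne
    · have : a ≠ a' := by
        rintro rfl; exact hne rfl
      have h1 := hp.diff a a' this
      simpa [pfam] using h1
    · have h1 := (key a' a ha').sub_comm'
      have h2 : (fun n => pfam p b k (Sum.inl ⟨a, ha⟩) n - pfam p b k (Sum.inr ⟨a', ha'⟩) n) =
          fun n => p a n - Polynomial.taylor (k : ℤ) (p a' n) := by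
        funext n; simp only [pfam]; ring
      rw [h2]
      exact h1
    · have h1 := key a a' ha
      have h2 : (fun n => pfam p b k (Sum.inr ⟨a, ha⟩) n - pfam p b k (Sum.inl ⟨a', ha'⟩) n) =
          fun n => Polynomial.taylor (k : ℤ) (p a n) - p a' n := by
        funext n; simp only [pfam]; ring
      rw [h2]
      exact h1
    · have : a ≠ a' := by
        rintro rfl; exact hne rfl
      have h1 := (hp.diff a a' this).taylor k
      have h2 : (fun n => pfam p b k (Sum.inr ⟨a, ha⟩) n - pfam p b k (Sum.inr ⟨a', ha'⟩) n) =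
          fun n => Polynomial.taylor (k : ℤ) (p a n - p a' n) := by
        funext n; simp only [pfam, map_sub]; ring
      rw [h2]
      exact h1

/-! ### the weight -/

/-- the set of leading coefficients in degree `d` -/
def plcs {ι : Type} (p : ι → ℕ → ℤ[X]) (d : ℕ) : Set ℤ :=
  {c | ∃ a, (p a 0).natDegree = d ∧ (p a 0).leadingCoeff = c}

theorem plcs_finite {ι : Type} [Finite ι] (p : ι → ℕ → ℤ[X]) (d : ℕ) : (plcs p d).Finite := by
  refine Set.Finite.subset (Set.finite_range fun a => (p a 0).leadingCoeff) ?_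
  rintro c ⟨a, -, h⟩
  exact ⟨a, h⟩

/-- the weight of a family -/
noncomputable def pw {ι : Type} (M : ℕ) (p : ι → ℕ → ℤ[X]) : Fin (M + 1) → ℕ :=
  fun d => (plcs p d).ncard

/-- degree and leading coefficients of the new family, members with the degree of the old ones -/
theorem pfam_high {ι : Type} {p : ι → ℕ → ℤ[X]} (hp : Nice p) (b a : ι) (k : ℕ)
    (h : (p b 0).natDegree < (p a 0).natDegree) :
    ((p a 0 - p b 0).natDegree = (p a 0).natDegree ∧
      (p a 0 - p b 0).leadingCoeff = (p a 0).leadingCoeff) ∧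
    ((Polynomial.taylor (k : ℤ) (p a 0) - p b 0).natDegree = (p a 0).natDegree ∧
      (Polynomial.taylor (k : ℤ) (p a 0) - p b 0).leadingCoeff = (p a 0).leadingCoeff) := by
  have h1 := (hp.self a).pu
  have h2 := (hp.self b).pu.up h
  have h3 := h1.sub h2
  have h4 := (h1.taylor (k : ℤ)).sub h2
  rw [sub_zero] at h3 h4
  have h5 := h3.ult (hp.self a).1 (hp.self a).lc_ne
  have h6 := h4.ult (hp.self a).1 (hp.self a).lc_ne
  exact ⟨h5.2, h6.2⟩

/-- members of the same degree and different leading coefficients -/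
theorem pfam_eq {ι : Type} {p : ι → ℕ → ℤ[X]} (hp : Nice p) (b a : ι) (k : ℕ)
    (h : (p b 0).natDegree = (p a 0).natDegree)
    (hc : (p a 0).leadingCoeff ≠ (p b 0).leadingCoeff) :
    ((p a 0 - p b 0).natDegree = (p a 0).natDegree ∧
      (p a 0 - p b 0).leadingCoeff = (p a 0).leadingCoeff - (p b 0).leadingCoeff) ∧
    ((Polynomial.taylor (k : ℤ) (p a 0) - p b 0).natDegree = (p a 0).natDegree ∧
      (Polynomial.taylor (k : ℤ) (p a 0) - p b 0).leadingCoeff =
        (p a 0).leadingCoeff - (p b 0).leadingCoeff) := by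
  have h1 := (hp.self a).pu
  have h2 := (hp.self b).pu
  rw [h] at h2
  have h3 := h1.sub h2
  have h4 := (h1.taylor (k : ℤ)).sub h2
  have h5 := h3.ult (hp.self a).1 (sub_ne_zero.2 hc)
  have h6 := h4.ult (hp.self a).1 (sub_ne_zero.2 hc)
  exact ⟨h5.2, h6.2⟩

/-- members of the same degree and the same leading coefficient -/
theorem pfam_low {ι : Type} {p : ι → ℕ → ℤ[X]} (hp : Nice p) (b a : ι) (k : ℕ)
    (h : (p b 0).natDegree = (p a 0).natDegree)
    (hc : (p a 0).leadingCoeff = (p b 0).leadingCoeff) :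
    (p a 0 - p b 0).natDegree < (p a 0).natDegree ∧
    (Polynomial.taylor (k : ℤ) (p a 0) - p b 0).natDegree < (p a 0).natDegree := by
  have h1 := (hp.self a).pu
  have h2 := (hp.self b).pu
  rw [h, ← hc] at h2
  have h3 := h1.sub h2
  have h4 := (h1.taylor (k : ℤ)).sub h2
  rw [sub_self] at h3 h4
  have hd := (hp.self a).1
  have aux : ∀ q : ℤ[X], q.natDegree ≤ (p a 0).natDegree → q.coeff (p a 0).natDegree = 0 →
      q.natDegree < (p a 0).natDegree := by
    intro q hq hq0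
    rcases hq.lt_or_eq with h5 | h5
    · exact h5
    · exfalso
      rw [← h5] at hq0
      have : q = 0 := leadingCoeff_eq_zero.1 hq0
      rw [this] at h5
      simp at h5
      omega
  exact ⟨aux _ (h3 0).1 (h3 0).2, aux _ (h4 0).1 (h4 0).2⟩

end Pool.Agent.Helper50.Rec
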