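import Mathlib
import Pool.Agent.Helper50.Rec.Defs
import Pool.Agent.Helper50.Rec.Basic
import Pool.Agent.Helper87.Rec.PetPoly

/-!
# PET induction: the van der Corput step
-/

set_option autoImplicit false

open MeasureTheory Polynomial Finset Filter Topology
open scoped BigOperators ComplexConjugate

namespace Pool.Agent.Helper50.Rec

variable {X : Type} [MeasurableSpace X]

open Classical in
/-- the functions of the new family -/
noncomputable def pfun (S : Sys X) {ι : Type} (p : ι → ℕ → ℤ[X]) (b : ι) (k : ℕ)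
    (F : ι → ℕ → X → ℂ) : PIdx p b → ℕ → X → ℂ
  | Sum.inl a => fun n x =>
      (if 2 ≤ (p a.1 0).natDegree then 1
        else S.sh ((p a.1 0).leadingCoeff * k) (F a.1 n) x) * conj (F a.1 n x)
  | Sum.inr a => fun n => F a.1 n

open Classical in
/-- the factor that does not depend on `h` -/
noncomputable def pout (S : Sys X) {ι : Type} (p : ι → ℕ → ℤ[X]) (b : ι) (k : ℕ)
    (F : ι → ℕ → X → ℂ) (n : ℕ) : X → ℂ := fun x =>
      (if 2 ≤ (p b 0).natDegree then 1
        else S.sh ((p b 0).leadingCoeff * k) (F b n) x) * conj (F b n x)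

theorem pet_one_or {P : Prop} [Decidable P] {f : X → ℂ} (hf : B1 f) :
    B1 (fun x => if P then 1 else f x) := by
  by_cases h : P
  · simp only [h, if_true]; exact B1.one
  · simp only [h, if_false]; exact hf

theorem pfun_B1 (S : Sys X) {ι : Type} (p : ι → ℕ → ℤ[X]) (b : ι) (k : ℕ)
    {F : ι → ℕ → X → ℂ} (hF : ∀ i n, B1 (F i n)) (j : PIdx p b) (n : ℕ) :
    B1 (pfun S p b k F j n) := by
  classical
  rcases j with a | a
  · exact (pet_one_or ((hF a.1 n).sh S _)).mul (hF a.1 n).conj
  · exact hF a.1 n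

theorem pout_B1 (S : Sys X) {ι : Type} (p : ι → ℕ → ℤ[X]) (b : ι) (k : ℕ)
    {F : ι → ℕ → X → ℂ} (hF : ∀ i n, B1 (F i n)) (n : ℕ) :
    B1 (pout S p b k F n) := by
  classical
  exact (pet_one_or ((hF b n).sh S _)).mul (hF b n).conj

/-- evaluation of a polynomial of degree one at shifted arguments -/
theorem pet_linear {u : ℕ → ℤ[X]} (hu : ULT u) (h2 : ¬ 2 ≤ (u 0).natDegree) (n : ℕ) (x k : ℤ) :
    (u n).eval (x + k) = (u n).eval x + (u 0).leadingCoeff * k := by
  have h1 : (u n).natDegree = 1 := by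
    have := hu.1
    have := (hu.2 n).1
    omega
  have h3 := (hu.2 n).2
  have h4 : (u n).coeff 1 = (u 0).leadingCoeff := by
    rw [← h3, leadingCoeff, h1]
  rw [eval_eq_sum_range' (lt_of_le_of_lt h1.le (by norm_num : 1 < 2)),
    eval_eq_sum_range' (lt_of_le_of_lt h1.le (by norm_num : 1 < 2))]
  simp only [Finset.sum_range_succ, Finset.sum_range_zero, h4]
  ring

open Classical in
/-- the product identity -/
theorem pet_prod (S : Sys X) {ι : Type} [Fintype ι] {p : ι → ℕ → ℤ[X]} (hp : Nice p) (b : ι)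
    (k : ℕ) (F : ι → ℕ → X → ℂ) (n h : ℕ) :
    S.sh (-(p b n).eval (h : ℤ)) (fun x =>
      (∏ i, S.sh ((p i n).eval ((h + k : ℕ) : ℤ)) (F i n) x) *
        conj (∏ i, S.sh ((p i n).eval (h : ℤ)) (F i n) x)) =
    fun x => (∏ j, S.sh ((pfam p b k j n).eval (h : ℤ)) (pfun S p b k F j n) x) *
      pout S p b k F n x := by
  funext x
  set A : ι → ℂ := fun i => F i n (S.τ ((p i n).eval ((h : ℤ) + k) - (p b n).eval (h : ℤ)) x)
    with hA
  set B : ι → ℂ := fun i => conj (F i n (S.τ ((p i n).eval (h : ℤ) - (p b n).eval (h : ℤ)) x))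
    with hB
  have hl : S.sh (-(p b n).eval (h : ℤ)) (fun x =>
      (∏ i, S.sh ((p i n).eval ((h + k : ℕ) : ℤ)) (F i n) x) *
        conj (∏ i, S.sh ((p i n).eval (h : ℤ)) (F i n) x)) x = (∏ i, A i) * ∏ i, B i := by
    simp only [Sys.sh, map_prod, ← S.τ_add, hA, hB, Nat.cast_add, sub_eq_add_neg]
  rw [hl]
  -- the linear factors
  have hlin : ∀ a : ι, (if 2 ≤ (p a 0).natDegree then (1 : ℂ) else
      S.sh ((p a 0).leadingCoeff * k) (F a n)
        (S.τ ((p a n).eval (h : ℤ) - (p b n).eval (h : ℤ)) x)) =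
      if 2 ≤ (p a 0).natDegree then (1 : ℂ) else A a := by
    intro a
    split_ifs with h2
    · rfl
    · simp only [hA, Sys.sh, ← S.τ_add]
      congr 2
      rw [pet_linear (hp.self a) h2]
      ring
  have h1 : ∀ a : {a : ι // a ≠ b}, S.sh ((pfam p b k (Sum.inl a) n).eval (h : ℤ))
      (pfun S p b k F (Sum.inl a) n) x =
        (if 2 ≤ (p a.1 0).natDegree then 1 else A a.1) * B a.1 := by
    intro a
    rw [← hlin a.1]
    simp only [pfam, pfun, Sys.sh, eval_sub, hB]
  have h2 : ∀ a : {a : ι // 2 ≤ (p a 0).natDegree}, S.sh ((pfam p b k (Sum.inr a) n).eval (h : ℤ))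
      (pfun S p b k F (Sum.inr a) n) x = A a.1 := by
    intro a
    simp only [pfam, pfun, Sys.sh, eval_sub, taylor_eval, hA]
  have h3 : pout S p b k F n x = (if 2 ≤ (p b 0).natDegree then 1 else A b) * B b := by
    rw [← hlin b]
    simp only [pout, hB, sub_self, S.τ_zero]
  rw [Fintype.prod_sum_type]
  simp only [h1, h2, h3]
  have h4 : (∏ a : {a : ι // a ≠ b}, ((if 2 ≤ (p a.1 0).natDegree then 1 else A a.1) * B a.1)) *
      ((if 2 ≤ (p b 0).natDegree then 1 else A b) * B b) =
      ∏ a, ((if 2 ≤ (p a 0).natDegree then 1 else A a) * B a) := by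
    rw [Fintype.prod_eq_mul_prod_subtype_ne _ b, mul_comm]
  have h5 : ∏ a : {a : ι // 2 ≤ (p a 0).natDegree}, A a.1 =
      ∏ a, (if 2 ≤ (p a 0).natDegree then A a else 1) := by
    rw [← Finset.prod_filter]
    exact (Finset.prod_subtype (univ.filter fun a => 2 ≤ (p a 0).natDegree) (by simp) A).symm
  rw [mul_right_comm, h4, h5, ← Finset.prod_mul_distrib, ← Finset.prod_mul_distrib]
  refine Finset.prod_congr rfl fun a _ => ?_
  split_ifs <;> ring

open Classical in
/-- one good shift -/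
theorem pet_shift (S : Sys X) {ι : Type} [Fintype ι] {p : ι → ℕ → ℤ[X]} (hp : Nice p) (b : ι)
    (k : ℕ) (F : ι → ℕ → X → ℂ) (hF : ∀ i n, B1 (F i n)) (H : ℕ → ℕ)
    (hT : Tendsto (fun n => S.sq (avg (H n) (fun h x => ∏ j,
      S.sh ((pfam p b k j n).eval (h : ℤ)) (pfun S p b k F j n) x))) atTop (nhds 0)) :
    Tendsto (fun n => ‖(H n : ℂ)⁻¹ * ∑ h ∈ range (H n), S.int (fun x =>
      (∏ i, S.sh ((p i n).eval ((h + k : ℕ) : ℤ)) (F i n) x) *
        conj (∏ i, S.sh ((p i n).eval (h : ℤ)) (F i n) x))‖) atTop (nhds 0) := by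
  have hsq : Tendsto (fun n => Real.sqrt (S.sq (avg (H n) (fun h x => ∏ j,
      S.sh ((pfam p b k j n).eval (h : ℤ)) (pfun S p b k F j n) x)))) atTop (nhds 0) := by
    have := (Real.continuous_sqrt.tendsto 0).comp hT
    rw [Real.sqrt_zero] at this
    exact this
  refine squeeze_zero (fun n => norm_nonneg _) (fun n => ?_) hsq
  have hv : ∀ h : ℕ, B1 (fun x => ∏ j, S.sh ((pfam p b k j n).eval (h : ℤ))
      (pfun S p b k F j n) x) := fun h =>
    B1.prod univ fun j => (pfun_B1 S p b k hF j n).sh S _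
  have e1 : ∀ h : ℕ, S.int (fun x =>
      (∏ i, S.sh ((p i n).eval ((h + k : ℕ) : ℤ)) (F i n) x) *
        conj (∏ i, S.sh ((p i n).eval (h : ℤ)) (F i n) x)) =
      S.int (fun x => (∏ j, S.sh ((pfam p b k j n).eval (h : ℤ)) (pfun S p b k F j n) x) *
        pout S p b k F n x) := by
    intro h
    rw [← pet_prod S hp b k F n h, S.int_sh]
  simp only [e1]
  rw [← S.int_avg_mul hv (H n) (pout_B1 S p b k hF n)]
  refine Real.le_sqrt_of_sq_le ?_
  exact S.cs_one (B1.avg hv _) (pout_B1 S p b k hF n)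

theorem pet_int_conj (S : Sys X) (f : X → ℂ) :
    S.int (fun x => conj (f x)) = conj (S.int f) := integral_conj

/-- counting the bad pairs -/
theorem pet_count (E : Finset ℕ) (K : ℕ) (T : ℕ → ℕ → ℝ) (hT : ∀ a b, T a b ≤ 1) (c : ℝ)
    (hc : 0 ≤ c)
    (hg : ∀ a ∈ range K, ∀ b ∈ range K, Nat.dist a b ∉ E → T a b ≤ c) :
    ∑ a ∈ range K, ∑ b ∈ range K, T a b ≤ K * (K * c + 2 * E.card) := by
  classical
  have h1 : ∀ a ∈ range K, ∑ b ∈ range K, T a b ≤ K * c + 2 * E.card := by
    intro a ha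
    rw [← Finset.sum_filter_add_sum_filter_not (range K) (fun b => Nat.dist a b ∉ E)]
    have h2 : ∑ b ∈ (range K).filter (fun b => Nat.dist a b ∉ E), T a b ≤ K * c := by
      calc ∑ b ∈ (range K).filter (fun b => Nat.dist a b ∉ E), T a b
          ≤ ∑ b ∈ (range K).filter (fun b => Nat.dist a b ∉ E), c := by
            refine Finset.sum_le_sum fun b hb => ?_
            rw [mem_filter] at hb
            exact hg a ha b hb.1 hb.2
        _ = ((range K).filter (fun b => Nat.dist a b ∉ E)).card * c := by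
            rw [Finset.sum_const, nsmul_eq_mul]
        _ ≤ K * c := by
            gcongr
            exact_mod_cast (Finset.card_filter_le _ _).trans (card_range K).le
    have h3 : ∑ b ∈ (range K).filter (fun b => ¬ Nat.dist a b ∉ E), T a b ≤ 2 * E.card := by
      have h4 : ((range K).filter (fun b => ¬ Nat.dist a b ∉ E)).card ≤ 2 * E.card := by
        have h5 : (range K).filter (fun b => ¬ Nat.dist a b ∉ E) ⊆
            E.image (fun e => a + e) ∪ E.image (fun e => a - e) := by
          intro b hb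
          rw [mem_filter, not_not] at hb
          rw [mem_union, mem_image, mem_image]
          rcases le_total a b with h | h
          · left
            refine ⟨_, hb.2, ?_⟩
            rw [Nat.dist_eq_sub_of_le h]; omega
          · right
            refine ⟨_, hb.2, ?_⟩
            rw [Nat.dist_eq_sub_of_le_right h]; omega
        calc _ ≤ _ := Finset.card_le_card h5
          _ ≤ _ := Finset.card_union_le _ _
          _ ≤ E.card + E.card := Nat.add_le_add Finset.card_image_le Finset.card_image_le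
          _ = 2 * E.card := by ring
      calc ∑ b ∈ (range K).filter (fun b => ¬ Nat.dist a b ∉ E), T a b
          ≤ ∑ b ∈ (range K).filter (fun b => ¬ Nat.dist a b ∉ E), (1 : ℝ) :=
            Finset.sum_le_sum fun b _ => hT a b
        _ = (((range K).filter (fun b => ¬ Nat.dist a b ∉ E)).card : ℝ) := by simp
        _ ≤ 2 * E.card := by exact_mod_cast h4
    linarith
  calc ∑ a ∈ range K, ∑ b ∈ range K, T a b ≤ ∑ a ∈ range K, (K * c + 2 * E.card) :=
        Finset.sum_le_sum h1
    _ = K * (K * c + 2 * E.card) := by rw [Finset.sum_const, card_range, nsmul_eq_mul]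

theorem pet_algebra (K c e ε : ℝ) (hK : 0 < K) (hc : 2 * e / K ≤ ε / 3) (hce : c = ε / 3) :
    (K ^ 2)⁻¹ * (K * (K * c + 2 * e)) ≤ ε / 3 + ε / 3 := by
  have h1 : (K ^ 2)⁻¹ * (K * (K * c + 2 * e)) = c + 2 * e / K := by
    field_simp
  rw [h1, hce]
  linarith

/-- abstract van der Corput step -/
theorem pet_vdc (S : Sys X) (v : ℕ → ℕ → X → ℂ) (hv : ∀ n h, B1 (v n h)) (H : ℕ → ℕ)
    (hH : Tendsto H atTop atTop) (E : Finset ℕ)
    (hk : ∀ k, k ∉ E → Tendsto (fun n => ‖(H n : ℂ)⁻¹ * ∑ h ∈ range (H n),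
      S.int (fun x => v n (h + k) x * conj (v n h x))‖) atTop (nhds 0)) :
    Tendsto (fun n => S.sq (avg (H n) (v n))) atTop (nhds 0) := by
  -- the correlations
  set T : ℕ → ℕ → ℕ → ℝ := fun n a b => ‖(H n : ℂ)⁻¹ * ∑ h ∈ range (H n),
    S.int (fun x => v n (h + a) x * conj (v n (h + b) x))‖ with hT
  have hT1 : ∀ n a b, T n a b ≤ 1 := fun n a b => norm_avg_le _ fun h =>
    S.norm_int_le ((hv n _).mul (hv n _).conj)
  have hTs : ∀ n a b, T n a b = T n b a := by
    intro n a b
    simp only [hT]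
    rw [← RCLike.norm_conj, map_mul, map_inv₀, Complex.conj_natCast, map_sum]
    congr 2
    refine Finset.sum_congr rfl fun h _ => ?_
    rw [← pet_int_conj]
    congr 1
    funext x
    simp only [map_mul, Complex.conj_conj]
    ring
  have hbk : ∀ b k, k ∉ E → Tendsto (fun n => T n (b + k) b) atTop (nhds 0) := by
    intro b k hkE
    have h1 := hk k hkE
    have hH' : Tendsto (fun n => (H n : ℝ)) atTop atTop :=
      tendsto_natCast_atTop_atTop.comp hH
    have h2 : Tendsto (fun n => 2 * (b : ℝ) / H n) atTop (nhds 0) :=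
      tendsto_const_nhds.div_atTop hH'
    have h3 := h1.add h2
    rw [add_zero] at h3
    refine squeeze_zero' (Eventually.of_forall fun n => norm_nonneg _) ?_ h3
    filter_upwards [hH.eventually_ge_atTop 1] with n hn
    have h4 := norm_avg_shift (fun h => S.int (fun x => v n (h + k) x * conj (v n h x)))
      (fun h => S.norm_int_le ((hv n _).mul (hv n _).conj)) (H n) b hn
    have h5 : T n (b + k) b = ‖(H n : ℂ)⁻¹ * ∑ h ∈ range (H n),
        S.int (fun x => v n (h + b + k) x * conj (v n (h + b) x))‖ := by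
      simp only [hT, add_assoc]
    rw [h5]
    have h6 := norm_sub_norm_le ((H n : ℂ)⁻¹ * ∑ h ∈ range (H n),
        S.int (fun x => v n (h + b + k) x * conj (v n (h + b) x))) ((H n : ℂ)⁻¹ *
          ∑ h ∈ range (H n), S.int (fun x => v n (h + k) x * conj (v n h x)))
    rw [norm_sub_rev] at h6
    linarith
  have hgood : ∀ a b, Nat.dist a b ∉ E → Tendsto (fun n => T n a b) atTop (nhds 0) := by
    intro a b hab
    rcases le_total a b with h | h
    · rw [Nat.dist_eq_sub_of_le h] at hab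
      have h1 := hbk a _ hab
      have h2 : a + (b - a) = b := by omega
      rw [h2] at h1
      simpa only [hTs _ b a] using h1
    · rw [Nat.dist_eq_sub_of_le_right h] at hab
      have h1 := hbk b _ hab
      have h2 : b + (a - b) = a := by omega
      rw [h2] at h1
      exact h1
  rw [Metric.tendsto_atTop]
  intro ε hε
  obtain ⟨K, hK⟩ := exists_nat_gt ((6 * (E.card : ℝ) + 1) / ε)
  have hK0 : 0 < (K : ℝ) := lt_of_le_of_lt (by positivity) hK
  have hK1 : 1 ≤ K := by exact_mod_cast hK0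
  have hKε : 2 * (E.card : ℝ) / K ≤ ε / 3 := by
    rw [div_lt_iff₀ hε] at hK
    rw [div_le_div_iff₀ hK0 (by norm_num)]
    nlinarith
  have hH' : Tendsto (fun n => (H n : ℝ)) atTop atTop :=
    tendsto_natCast_atTop_atTop.comp hH
  have h2 : Tendsto (fun n => 2 * (K : ℝ) / H n) atTop (nhds 0) :=
    tendsto_const_nhds.div_atTop hH'
  have ev1 : ∀ᶠ n in atTop, 2 * (K : ℝ) / H n < ε / 6 :=
    h2.eventually_lt_const (by positivity)
  have ev2 : ∀ᶠ n in atTop, K ≤ H n := hH.eventually_ge_atTop K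
  have ev3 : ∀ᶠ n in atTop, ∀ a ∈ range K, ∀ b ∈ range K, Nat.dist a b ∉ E → T n a b ≤ ε / 3 := by
    rw [Filter.eventually_all_finset]
    intro a _
    rw [Filter.eventually_all_finset]
    intro b _
    by_cases hab : Nat.dist a b ∈ E
    · exact Eventually.of_forall fun n hn => absurd hab hn
    · filter_upwards [(hgood a b hab).eventually_lt_const (show (0 : ℝ) < ε / 3 by positivity)]
        with n hn _
      exact hn.le
  have ev := (ev1.and (ev2.and ev3))
  rw [eventually_atTop] at ev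
  obtain ⟨n₀, hn₀⟩ := ev
  refine ⟨n₀, fun n hn => ?_⟩
  obtain ⟨h3, h4, h5⟩ := hn₀ n hn
  rw [Real.dist_eq, sub_zero, abs_of_nonneg (S.sq_nonneg _)]
  have h6 := vdc S (v n) (hv n) (H n) K hK1 h4
  have h7 := pet_count E K (T n) (hT1 n) (ε / 3) (by positivity) h5
  have h8 : ((K : ℝ) ^ 2)⁻¹ * ∑ a ∈ range K, ∑ b ∈ range K, T n a b ≤ ε / 3 + ε / 3 := by
    refine le_trans ?_ (pet_algebra K (ε / 3) E.card ε hK0 hKε rfl)
    exact mul_le_mul_of_nonneg_left h7 (by positivity)
  have h9 : S.sq (avg (H n) (v n)) ≤ ε / 3 + ε / 3 + 2 * K / H n := by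
    refine h6.trans ?_
    exact add_le_add h8 le_rfl
  linarith

open Classical in
/-- the step of the PET induction -/
theorem pet_step (S : Sys X) {ι : Type} [Fintype ι] {p : ι → ℕ → ℤ[X]} (hp : Nice p) (b i0 : ι)
    (h0 : 2 ≤ (p i0 0).natDegree)
    (hV : ∀ k : ℕ, 1 ≤ k → k ∉ pbad p → Vanish S (pfam p b k) (Sum.inr ⟨i0, h0⟩)) :
    Vanish S p i0 := by
  intro f hf hnull F hF hF0 H hH
  refine pet_vdc S _ (fun n h => B1.prod univ fun i => (hF i n).sh S _) H hH
    (insert 0 (pbad_finite p).toFinset) ?_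
  intro k hk
  rw [Finset.mem_insert, not_or, Set.Finite.mem_toFinset] at hk
  refine pet_shift S hp b k F hF H ?_
  exact hV k (Nat.one_le_iff_ne_zero.2 hk.1) hk.2 f hf hnull (pfun S p b k F)
    (fun j n => pfun_B1 S p b k hF j n) (fun n => hF0 n) H hH

end Pool.Agent.Helper50.Rec
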