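import Mathlib
import Pool.Agent.Helper50.Rec.Defs
import Pool.Agent.Helper50.Rec.Basic
import Pool.Agent.Helper87.Rec.PetPoly
import Pool.Agent.Helper87.Rec.PetStep

/-!
# PET induction
-/

set_option autoImplicit false

open MeasureTheory Polynomial Finset Filter Topology
open scoped BigOperators ComplexConjugate

namespace Pool.Agent.Helper50.Rec

variable {X : Type} [MeasurableSpace X]

theorem pfam_deg_le {ι : Type} {p : ι → ℕ → ℤ[X]} (b : ι) (k : ℕ)
    (hb : ∀ a, (p b 0).natDegree ≤ (p a 0).natDegree) (j : PIdx p b) :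
    (pfam p b k j 0).natDegree ≤ (p (Sum.elim (fun a => a.1) (fun a => a.1) j) 0).natDegree := by
  rcases j with a | a
  · refine (natDegree_sub_le _ _).trans ?_
    exact max_le le_rfl (hb _)
  · refine (natDegree_sub_le _ _).trans ?_
    rw [natDegree_taylor]
    exact max_le le_rfl (hb _)

/-- members of high degree -/
theorem plcs_high {ι : Type} {p : ι → ℕ → ℤ[X]} (hp : Nice p) (b : ι) (k : ℕ)
    (hb : ∀ a, (p b 0).natDegree ≤ (p a 0).natDegree) (d : ℕ) (hd : (p b 0).natDegree < d) :
    plcs (pfam p b k) d = plcs p d := by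
  ext c
  constructor
  · rintro ⟨j, hj, hc⟩
    have h1 := pfam_deg_le b k hb j
    rw [hj] at h1
    rcases j with a | a
    · obtain ⟨⟨h2, h3⟩, -⟩ := pfam_high hp b a.1 k (lt_of_lt_of_le hd h1)
      exact ⟨a.1, h2.symm.trans hj, h3.symm.trans hc⟩
    · obtain ⟨-, ⟨h2, h3⟩⟩ := pfam_high hp b a.1 k (lt_of_lt_of_le hd h1)
      exact ⟨a.1, h2.symm.trans hj, h3.symm.trans hc⟩
  · rintro ⟨a, ha, hc⟩
    have hab : a ≠ b := by
      rintro rfl; omega
    obtain ⟨⟨h2, h3⟩, -⟩ := pfam_high hp b a k (by rw [ha]; exact hd)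
    exact ⟨Sum.inl ⟨a, hab⟩, h2.trans ha, h3.trans hc⟩

/-- members of the degree of the pivot -/
theorem plcs_mid {ι : Type} {p : ι → ℕ → ℤ[X]} (hp : Nice p) (b : ι) (k : ℕ)
    (hb : ∀ a, (p b 0).natDegree ≤ (p a 0).natDegree) :
    plcs (pfam p b k) (p b 0).natDegree ⊆
      (fun c => c - (p b 0).leadingCoeff) ''
        (plcs p (p b 0).natDegree \ {(p b 0).leadingCoeff}) := by
  rintro c ⟨j, hj, hc⟩
  rcases j with a | a
  · rcases (hb a.1).lt_or_eq with h | h
    · obtain ⟨⟨h2, -⟩, -⟩ := pfam_high hp b a.1 k h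
      have : (p a.1 0).natDegree = (p b 0).natDegree := h2.symm.trans hj
      omega
    · by_cases hl : (p a.1 0).leadingCoeff = (p b 0).leadingCoeff
      · have h2 := (pfam_low hp b a.1 k h hl).1
        have h3 : (p a.1 0 - p b 0).natDegree = (p b 0).natDegree := hj
        omega
      · have h2 := (pfam_eq hp b a.1 k h hl).1.2
        exact ⟨_, ⟨⟨a.1, h.symm, rfl⟩, hl⟩, h2.symm.trans hc⟩
  · rcases (hb a.1).lt_or_eq with h | h
    · obtain ⟨-, ⟨h2, -⟩⟩ := pfam_high hp b a.1 k h
      have : (p a.1 0).natDegree = (p b 0).natDegree := h2.symm.trans hj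
      omega
    · by_cases hl : (p a.1 0).leadingCoeff = (p b 0).leadingCoeff
      · have h2 := (pfam_low hp b a.1 k h hl).2
        have h3 : (Polynomial.taylor (k : ℤ) (p a.1 0) - p b 0).natDegree = (p b 0).natDegree := hj
        omega
      · have h2 := (pfam_eq hp b a.1 k h hl).2.2
        exact ⟨_, ⟨⟨a.1, h.symm, rfl⟩, hl⟩, h2.symm.trans hc⟩

/-- the weight decreases -/
theorem pw_lt {ι : Type} [Finite ι] {p : ι → ℕ → ℤ[X]} (hp : Nice p) (b : ι) (k M : ℕ)
    (hb : ∀ a, (p b 0).natDegree ≤ (p a 0).natDegree) (hM : (p b 0).natDegree ≤ M) :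
    Pi.Lex (· > ·) (fun {_} => (· < ·)) (pw M (pfam p b k)) (pw M p) := by
  refine ⟨⟨(p b 0).natDegree, Nat.lt_succ_of_le hM⟩, ?_, ?_⟩
  · intro d hd
    have hd' : (p b 0).natDegree < (d : ℕ) := hd
    simp only [pw]
    rw [plcs_high hp b k hb d hd']
  · simp only [pw]
    have hfin := plcs_finite p (p b 0).natDegree
    have h1 : (plcs (pfam p b k) (p b 0).natDegree).ncard ≤
        (plcs p (p b 0).natDegree \ {(p b 0).leadingCoeff}).ncard := by
      refine (Set.ncard_le_ncard (plcs_mid hp b k hb) ((hfin.sdiff).image _)).trans ?_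
      exact Set.ncard_image_le hfin.sdiff
    have h2 : (plcs p (p b 0).natDegree \ {(p b 0).leadingCoeff}).ncard <
        (plcs p (p b 0).natDegree).ncard :=
      Set.ncard_sdiff_singleton_lt_of_mem ⟨b, rfl, rfl⟩ hfin
    exact h1.trans_lt h2

/-- PET induction, given the linear case -/
theorem pet_of_linear (S : Sys X)
    (hlin : ∀ {ι : Type} [Fintype ι] (lam : ι → ℤ)
      (_ : ∀ i, lam i ≠ 0) (_ : Function.Injective lam) (i0 : ι)
      (f : X → ℂ) (_ : B1 f) (_ : S.Null f) (ε : ℝ) (_ : 0 < ε),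
      ∃ H₀ : ℕ, ∀ H ≥ H₀, ∀ c : ι → ℤ, ∀ F : ι → X → ℂ, (∀ i, B1 (F i)) → F i0 = f →
        S.sq (avg H (fun h x => ∏ i, S.sh (lam i * (h : ℤ) + c i) (F i) x)) ≤ ε) (M : ℕ) :
    ∀ w : Fin (M + 1) → ℕ, ∀ {ι : Type} [Fintype ι] (p : ι → ℕ → ℤ[X]), Nice p → pw M p = w →
      ∀ i0 : ι, (∀ i, (p i 0).natDegree ≤ (p i0 0).natDegree) → (p i0 0).natDegree ≤ M →
        Vanish S p i0 := by
  classical
  have wf : WellFounded (Pi.Lex (· > ·) (fun {_ : Fin (M + 1)} => ((· < ·) : ℕ → ℕ → Prop))) :=
    Pi.Lex.wellFounded _ fun _ => wellFounded_lt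
  intro w
  induction w using wf.induction with
  | _ w ih =>
  intro ι _ p hp hw i0 hmax hM
  by_cases h2 : 2 ≤ (p i0 0).natDegree
  · -- choice of the pivot
    by_cases hB : ∃ b, (∀ a, (p b 0).natDegree ≤ (p a 0).natDegree) ∧
        ((p b 0).natDegree < (p i0 0).natDegree ∨ (p i0 0).leadingCoeff ≠ (p b 0).leadingCoeff)
    · obtain ⟨b, hb, hbi⟩ := hB
      refine pet_step S hp b i0 h2 fun k hk hkb => ?_
      have hdeg : (pfam p b k (Sum.inr ⟨i0, h2⟩) 0).natDegree = (p i0 0).natDegree := by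
        rcases (hb i0).lt_or_eq with h | h
        · exact (pfam_high hp b i0 k h).2.1
        · rcases hbi with h' | h'
          · omega
          · exact (pfam_eq hp b i0 k h h').2.1
      refine ih (pw M (pfam p b k)) ?_ (pfam p b k) (nice_pfam hp b hk hkb) rfl _ ?_ ?_
      · rw [← hw]
        exact pw_lt hp b k M hb ((hb i0).trans hM)
      · intro j
        rw [hdeg]
        exact (pfam_deg_le b k hb j).trans (hmax _)
      · rw [hdeg]; exact hM
    · push Not at hB
      have : Nonempty ι := ⟨i0⟩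
      obtain ⟨b0, hb0⟩ := Finite.exists_min fun a => (p a 0).natDegree
      have h3 : ∀ a, (p a 0).natDegree = (p i0 0).natDegree := by
        intro a
        have := (hB b0 hb0).1
        have := hb0 a
        have := hmax a
        omega
      have hb : ∀ a, (p i0 0).natDegree ≤ (p a 0).natDegree := fun a => (h3 a).ge
      have h4 : ∀ a, (p a 0).leadingCoeff = (p i0 0).leadingCoeff := by
        intro a
        refine ((hB a ?_).2).symm
        intro a'
        rw [h3 a, h3 a']
      refine pet_step S hp i0 i0 h2 fun k hk hkb => ?_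
      have hk0 : (k : ℤ) ≠ 0 := by
        have : k ≠ 0 := by omega
        exact_mod_cast this
      have hdeg : (pfam p i0 k (Sum.inr ⟨i0, h2⟩) 0).natDegree = (p i0 0).natDegree - 1 :=
        ((hp.self i0).delta h2 hk0).2.1
      refine ih (pw M (pfam p i0 k)) ?_ (pfam p i0 k) (nice_pfam hp i0 hk hkb) rfl _ ?_ ?_
      · rw [← hw]
        exact pw_lt hp i0 k M hb hM
      · intro j
        rw [hdeg]
        rcases j with a | a
        · have := (pfam_low hp i0 a.1 k (h3 a.1).symm (h4 a.1)).1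
          have h5 := h3 a.1
          show (p a.1 0 - p i0 0).natDegree ≤ _
          omega
        · have := (pfam_low hp i0 a.1 k (h3 a.1).symm (h4 a.1)).2
          have h5 := h3 a.1
          show (Polynomial.taylor (k : ℤ) (p a.1 0) - p i0 0).natDegree ≤ _
          omega
      · rw [hdeg]; omega
  · -- the linear case
    have hd : ∀ i n, (p i n).natDegree = 1 := by
      intro i n
      have h3 := (hp.self i).1
      have h4 := ((hp.self i).2 n).1
      have h5 := hmax i
      omega
    have hlc : ∀ i n, (p i n).coeff 1 = (p i 0).leadingCoeff := by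
      intro i n
      rw [← ((hp.self i).2 n).2, leadingCoeff, hd i n]
    have hev : ∀ i n (x : ℤ), (p i n).eval x = (p i 0).leadingCoeff * x + (p i n).coeff 0 := by
      intro i n x
      rw [eval_eq_sum_range' (lt_of_le_of_lt (hd i n).le (by norm_num : 1 < 2))]
      simp only [Finset.sum_range_succ, Finset.sum_range_zero, hlc]
      ring
    have hinj : Function.Injective fun i => (p i 0).leadingCoeff := by
      intro i j hij
      by_contra hne
      have h3 : 1 ≤ (p i 0 - p j 0).natDegree := (hp.diff i j hne).1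
      have h4 := (pfam_low hp j i 0 (by rw [hd, hd]) hij).1
      rw [hd] at h4
      omega
    intro f hf hnull F hF hF0 H hH
    rw [Metric.tendsto_atTop]
    intro ε hε
    obtain ⟨H₀, hH₀⟩ := hlin (fun i => (p i 0).leadingCoeff) (fun i => (hp.self i).lc_ne) hinj i0 f
      hf hnull (ε / 2) (by positivity)
    have ev := hH.eventually_ge_atTop H₀
    rw [eventually_atTop] at ev
    obtain ⟨n₀, hn₀⟩ := ev
    refine ⟨n₀, fun n hn => ?_⟩
    rw [Real.dist_eq, sub_zero, abs_of_nonneg (S.sq_nonneg _)]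
    have h5 := hH₀ (H n) (hn₀ n hn) (fun i => (p i n).coeff 0) (fun i => F i n) (fun i => hF i n)
      (hF0 n)
    simp only [hev]
    linarith

end Pool.Agent.Helper50.Rec
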