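import Mathlib
import Pool.Agent.Helper50.Rec.Defs
import Pool.Agent.Helper19.Rec.Linear
import Pool.Agent.Helper87.Rec.Pet

/-!
# PET induction, final form (REC-6)
-/

set_option autoImplicit false

open MeasureTheory Polynomial Finset Filter Topology
open scoped BigOperators ComplexConjugate

namespace Pool.Agent.Helper50.Rec

variable {X : Type} [MeasurableSpace X]

/-- REC-6 -/
theorem pet (S : Sys X) {ι : Type} [Fintype ι] (p : ι → ℕ → ℤ[X]) (hp : Nice p) (i0 : ι)
    (hmax : ∀ i, (p i 0).natDegree ≤ (p i0 0).natDegree) : Vanish S p i0 := by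
  refine pet_of_linear S ?_ (p i0 0).natDegree _ p hp rfl i0 hmax le_rfl
  intro ι' _ lam h1 h2 j0 f h3 h4 ε h5
  exact linear_vanish S lam h1 h2 j0 f h3 h4 ε h5

end Pool.Agent.Helper50.Rec
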